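import Pool.Agent.LibHB89.B1
import Pool.Agent.LibHB89.G5
import Pool.Agent.LibHB89.G6

set_option autoImplicit false

namespace Pool.Agent.Results.MP_c2d7b4_nt.FewThrees

open Pool.HB89.Stmt

/-- **Almost all families of Hoffman elements with few threes are linearly independent over the algebraic numbers.**
Here `zetaW w` is the multiple zeta value of the word `w`, and `hoffman l N m` is the set of all words over `{2, 3}` with
exactly `l` threes and weight in `[N, N + m)`. `K` is any subfield of `ℂ` over which `π` is transcendental; by the last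
part the field of all algebraic numbers is one.

For all `n`, `s`, `l : Fin s → ℕ`, `ε > 0` there is `m₀` such that for all `N`, `m : Fin s → ℕ` with all `m i ≥ m₀`, all
`K` and all `K`-linearly independent `u₁, …, u_n ∈ ℂ`, at most a proportion `ε` of the tuples `w` with
`w i ∈ hoffman (l i) (N i) (m i)` are such that `u₁, …, u_n, ζ(w₁), …, ζ(w_s)` are linearly dependent over `K`. -/
theorem result :
    (∀ (n s : ℕ) (l : Fin s → ℕ) (ε : ℝ), 0 < ε → ∃ m₀ : ℕ, ∀ N m : Fin s → ℕ, (∀ i, m₀ ≤ m i) →
      ∀ K : IntermediateField ℚ ℂ, Transcendental K (Real.pi : ℂ) →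
        ∀ u : Fin n → ℂ, LinearIndependent K u →
          ({w : Fin s → List ℕ | (∀ i, w i ∈ hoffman (l i) (N i) (m i)) ∧
            ¬ LinearIndependent K (Sum.elim u (fun i => (zetaW (w i) : ℂ)))}.ncard : ℝ) ≤
              ε * ∏ i, ((hoffman (l i) (N i) (m i)).ncard : ℝ)) ∧
    Transcendental (algebraicClosure ℚ ℂ) (Real.pi : ℂ) := by
  simp only [Pool.HB89.zetaW_eq, Pool.HB89.stmt_hoffman_eq]
  refine ⟨?_, Pool.HB89.transcendental_pi_closure⟩
  intro n s l ε hε
  obtain ⟨m₀, h⟩ := Pool.HB89.tuples_window n s l ε hε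
  exact ⟨m₀, fun N m hm K hK u hu => h N m hm K hK u hu⟩

end Pool.Agent.Results.MP_c2d7b4_nt.FewThrees
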