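import Pool.Agent.LibHB89.B1
import Pool.Agent.LibHB89.G6
import Pool.Agent.LibHN1.S

set_option autoImplicit false

namespace Pool.Agent.Results.MP_c2d7b4_nt.SquaresLowDegree

open Pool.HB89.Stmt

/-- **One three: in large squares of positions almost all tuples satisfy no relation of low degree.** Here `zetaW w` is
the multiple zeta value of the word `w`, and for `a : Fin 2 → ℕ`, `word a` is the word `{2}^(a 0) 3 {2}^(a 1)`. `K` is
any subfield of `ℂ` over which `π` is transcendental; by the last part the field of all algebraic numbers is one.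

For all `v`, `d`, `s` and `ε > 0` there is `M₀` such that for `M ≥ M₀`, all positions `a : Fin s → Fin 2 → ℕ`, all `K`
and all `K`-subspaces `W` of `ℂ` with `dim W ≤ v` the following holds: for all but at most `ε M ^ (2 s)` of the
`M ^ (2 s)` tuples `p` with `p j i < M`, the `s` numbers `ζ(word (a j + p j))` are not a zero of any nonzero polynomial
in `s` variables of total degree at most `d` with all coefficients in `W`. -/
theorem result :
    (∀ (v d s : ℕ) (ε : ℝ), 0 < ε → ∃ M₀ : ℕ, ∀ M ≥ M₀, ∀ (a : Fin s → Fin 2 → ℕ)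
      (K : IntermediateField ℚ ℂ), Transcendental K (Real.pi : ℂ) →
        ∀ W : Submodule K ℂ, FiniteDimensional K W → Module.finrank K W ≤ v →
          ({p : Fin s → Fin 2 → ℕ | (∀ j i, p j i < M) ∧ ∃ P : MvPolynomial (Fin s) ℂ, P ≠ 0 ∧
            P.totalDegree ≤ d ∧ (∀ m, P.coeff m ∈ W) ∧
              MvPolynomial.eval (fun j => (zetaW (word (a j + p j)) : ℂ)) P = 0}.ncard : ℝ) ≤
                ε * (M : ℝ) ^ (2 * s)) ∧
    Transcendental (algebraicClosure ℚ ℂ) (Real.pi : ℂ) := by
  simp only [Pool.HB89.stmt_word_eq, Pool.HB89.zetaW_eq]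
  refine ⟨?_, Pool.HB89.transcendental_pi_closure⟩
  intro v d s ε hε
  obtain ⟨M₀, h⟩ := Pool.Agent.LibHN1.tuples_alg d s v ε hε
  exact ⟨M₀, fun M hM a K hK W hWf hW => h M hM a K hK W hWf hW⟩

end Pool.Agent.Results.MP_c2d7b4_nt.SquaresLowDegree
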